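import Mathlib

/-!
Module F of MP_4e26da_nt: Selberg upper bound sieve weights with sharp main term.
-/

set_option autoImplicit false

namespace Pool.Agent.Helper69.EK

open Finset ArithmeticFunction
open scoped ArithmeticFunction.Moebius ArithmeticFunction.zeta

/-- sum over the numbers with a given set of prime factors -/
theorem claim_rad (P : Finset ℕ) : (∀ p ∈ P, p.Prime) → ∀ N : ℕ,
    ∑ m ∈ (Icc 1 N).filter (fun m => m.primeFactors = P), (1 : ℝ) / m ≤
      ∏ p ∈ P, (1 : ℝ) / (p - 1) := by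
  induction P using Finset.induction_on with
  | empty =>
    intro _ N
    rw [Finset.prod_empty]
    have h1 : (Icc 1 N).filter (fun m => m.primeFactors = ∅) ⊆ {1} := by
      intro m hm
      rw [Finset.mem_filter, Finset.mem_Icc, Nat.primeFactors_eq_empty] at hm
      rw [Finset.mem_singleton]
      omega
    calc ∑ m ∈ (Icc 1 N).filter (fun m => m.primeFactors = ∅), (1 : ℝ) / m
        ≤ ∑ m ∈ ({1} : Finset ℕ), (1 : ℝ) / m :=
          Finset.sum_le_sum_of_subset_of_nonneg h1 (fun _ _ _ => by positivity)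
      _ = 1 := by simp
  | insert p P hp ih =>
    intro hP N
    have hpp : p.Prime := hP p (Finset.mem_insert_self _ _)
    have hP' : ∀ q ∈ P, q.Prime := fun q hq => hP q (Finset.mem_insert_of_mem hq)
    have ih' := ih hP' N
    rw [Finset.prod_insert hp]
    have hp1 : (1 : ℝ) < p := by exact_mod_cast hpp.one_lt
    -- the injection
    set S := (Icc 1 N).filter (fun m => m.primeFactors = insert p P) with hS
    set T := (Icc 1 N).filter (fun m => m.primeFactors = P) with hT
    have hSm : ∀ m ∈ S, m ≠ 0 ∧ 1 ≤ m.factorization p ∧ m.factorization p ≤ N ∧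
        m / p ^ m.factorization p ∈ T := by
      intro m hm
      rw [hS, Finset.mem_filter, Finset.mem_Icc] at hm
      obtain ⟨⟨hm1, hm2⟩, hm3⟩ := hm
      have hm0 : m ≠ 0 := by omega
      have hpm : p ∈ m.primeFactors := by rw [hm3]; exact Finset.mem_insert_self _ _
      have hpd : p ∣ m := Nat.dvd_of_mem_primeFactors hpm
      refine ⟨hm0, (hpp.dvd_iff_one_le_factorization hm0).1 hpd, ?_, ?_⟩
      · exact ((Nat.factorization_lt p hm0).le).trans hm2
      · rw [hT, Finset.mem_filter, Finset.mem_Icc]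
        have hpos : 0 < m / p ^ m.factorization p := Nat.ordCompl_pos p hm0
        refine ⟨⟨hpos, (Nat.div_le_self _ _).trans hm2⟩, ?_⟩
        rw [← Nat.support_factorization, Nat.factorization_ordCompl, Finsupp.support_erase,
          Nat.support_factorization, hm3, Finset.erase_insert hp]
    have hsum : ∑ m ∈ S, (1 : ℝ) / m ≤
        ∑ x ∈ (Icc 1 N) ×ˢ T, (1 : ℝ) / (p : ℝ) ^ x.1 * (1 / x.2) := by
      have h1 : ∑ m ∈ S, (1 : ℝ) / m = ∑ x ∈ S.image (fun m => (m.factorization p,
          m / p ^ m.factorization p)), (1 : ℝ) / (p : ℝ) ^ x.1 * (1 / (x.2 : ℕ)) := by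
        rw [Finset.sum_image]
        · apply Finset.sum_congr rfl
          intro m hm
          have h2 : (m : ℝ) = (p : ℝ) ^ m.factorization p * ((m / p ^ m.factorization p : ℕ) : ℝ) := by
            exact_mod_cast (Nat.ordProj_mul_ordCompl_eq_self m p).symm
          conv_lhs => rw [h2]
          rw [one_div_mul_one_div]
        · intro m hm m' hm' heq
          obtain ⟨h2, h3⟩ := Prod.mk.inj heq
          rw [← Nat.ordProj_mul_ordCompl_eq_self m p, ← Nat.ordProj_mul_ordCompl_eq_self m' p]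
          rw [h3, h2]
      rw [h1]
      apply Finset.sum_le_sum_of_subset_of_nonneg
      · intro x hx
        rw [Finset.mem_image] at hx
        obtain ⟨m, hm, rfl⟩ := hx
        obtain ⟨_, h2, h3, h4⟩ := hSm m hm
        rw [Finset.mem_product, Finset.mem_Icc]
        exact ⟨⟨h2, h3⟩, h4⟩
      · intro x _ _
        positivity
    rw [Finset.sum_product] at hsum
    simp only at hsum
    rw [← Finset.sum_mul_sum] at hsum
    have hgeo : ∑ k ∈ Icc 1 N, (1 : ℝ) / (p : ℝ) ^ k ≤ 1 / (p - 1) := by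
      have h2 : ∀ N : ℕ, ∑ k ∈ Icc 1 N, (1 : ℝ) / (p : ℝ) ^ k = (1 - 1 / (p : ℝ) ^ N) / (p - 1) := by
        intro N
        have hp0 : (p : ℝ) ≠ 0 := by positivity
        have hp1' : (p : ℝ) - 1 ≠ 0 := by linarith
        induction N with
        | zero => simp
        | succ N ihN =>
          rw [Finset.sum_Icc_succ_top (by omega), ihN, pow_succ]
          field_simp
          ring
      rw [h2]
      apply div_le_div_of_nonneg_right _ (by linarith)
      have : (0 : ℝ) ≤ 1 / (p : ℝ) ^ N := by positivity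
      linarith
    calc ∑ m ∈ S, (1 : ℝ) / m ≤ _ := hsum
      _ ≤ 1 / (p - 1) * ∏ p ∈ P, (1 : ℝ) / (p - 1) := by
        apply mul_le_mul hgeo ih' (Finset.sum_nonneg (fun _ _ => by positivity))
        apply div_nonneg zero_le_one; linarith

theorem totient_sqf {l : ℕ} (hl : Squarefree l) :
    (1 : ℝ) / l.totient = ∏ p ∈ l.primeFactors, (1 : ℝ) / (p - 1) := by
  rw [Nat.totient_eq_div_primeFactors_mul, Nat.prod_primeFactors_of_squarefree hl,
    Nat.div_self (Nat.pos_of_ne_zero hl.ne_zero), one_mul, Finset.prod_div_distrib,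
    Finset.prod_const_one]
  congr 1
  push_cast
  apply Finset.prod_congr rfl
  intro p hp
  rw [Nat.cast_sub (Nat.prime_of_mem_primeFactors hp).one_le, Nat.cast_one]

theorem squarefree_prod_primes (P : Finset ℕ) (hP : ∀ p ∈ P, p.Prime) :
    Squarefree (∏ p ∈ P, p) := by
  apply Finset.squarefree_prod_of_pairwise_isCoprime
  · intro a ha b hb hab
    show IsRelPrime a b
    rw [← Nat.coprime_iff_isRelPrime]
    exact (Nat.coprime_primes (hP a ha) (hP b hb)).2 hab
  · intro p hp
    exact (hP p hp).prime.squarefree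

/-- the full squarefree sum dominates the harmonic sum -/
theorem G1_lower (R : ℕ) :
    ∑ m ∈ Icc 1 R, (1 : ℝ) / m ≤ ∑ l ∈ (Icc 1 R).filter Squarefree, (1 : ℝ) / l.totient := by
  classical
  have hmaps : ∀ m ∈ Icc 1 R, (∏ p ∈ m.primeFactors, p) ∈ (Icc 1 R).filter Squarefree := by
    intro m hm
    rw [Finset.mem_Icc] at hm
    rw [Finset.mem_filter, Finset.mem_Icc]
    have hdvd := Nat.prod_primeFactors_dvd m
    have hpos : 0 < ∏ p ∈ m.primeFactors, p := Nat.pos_of_dvd_of_pos hdvd (by omega)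
    exact ⟨⟨hpos, (Nat.le_of_dvd (by omega) hdvd).trans hm.2⟩,
      squarefree_prod_primes _ (fun p hp => Nat.prime_of_mem_primeFactors hp)⟩
  rw [← Finset.sum_fiberwise_of_maps_to hmaps]
  apply Finset.sum_le_sum
  intro l hl
  rw [Finset.mem_filter] at hl
  rw [totient_sqf hl.2]
  refine le_trans (le_of_eq ?_) (claim_rad l.primeFactors
    (fun p hp => Nat.prime_of_mem_primeFactors hp) R)
  apply Finset.sum_congr _ (fun _ _ => rfl)
  apply Finset.filter_congr
  intro m _
  constructor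
  · intro h
    rw [← h, Nat.primeFactors_prod_primeFactors]
  · intro h
    rw [h, Nat.prod_primeFactors_of_squarefree hl.2]

/-- coprime index set -/
noncomputable def AA (D R : ℕ) : Finset ℕ := by
  classical
  exact (Icc 1 R).filter (fun l => Squarefree l ∧ Nat.Coprime l D)

theorem mem_AA {D R l : ℕ} : l ∈ AA D R ↔ (1 ≤ l ∧ l ≤ R) ∧ Squarefree l ∧ Nat.Coprime l D := by
  classical
  unfold AA
  rw [Finset.mem_filter, Finset.mem_Icc]

noncomputable def GG (D R : ℕ) : ℝ := ∑ l ∈ AA D R, (1 : ℝ) / l.totient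

theorem G1_le (D R : ℕ) (hD : 0 < D) :
    ∑ l ∈ (Icc 1 R).filter Squarefree, (1 : ℝ) / l.totient ≤ (D : ℝ) / D.totient * GG D R := by
  classical
  have hD0 : D ≠ 0 := hD.ne'
  -- sum over squarefree divisors of D
  have hdiv : ∑ d ∈ D.divisors.filter Squarefree, (1 : ℝ) / d.totient = (D : ℝ) / D.totient := by
    have h1 : ∑ d ∈ D.divisors.filter Squarefree, (1 : ℝ) / d.totient =
        ∑ P ∈ D.primeFactors.powerset, ∏ p ∈ P, (1 : ℝ) / (p - 1) := by
      symm
      refine Finset.sum_bij' (fun P _ => ∏ p ∈ P, p) (fun d _ => d.primeFactors) ?_ ?_ ?_ ?_ ?_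
      · intro P hP
        rw [Finset.mem_powerset] at hP
        have hPp : ∀ p ∈ P, p.Prime := fun p hp => Nat.prime_of_mem_primeFactors (hP hp)
        rw [Finset.mem_filter, Nat.mem_divisors]
        refine ⟨⟨?_, hD0⟩, squarefree_prod_primes _ hPp⟩
        exact (Finset.prod_dvd_prod_of_subset _ _ _ hP).trans (Nat.prod_primeFactors_dvd D)
      · intro d hd
        rw [Finset.mem_filter, Nat.mem_divisors] at hd
        rw [Finset.mem_powerset]
        exact Nat.primeFactors_mono hd.1.1 hD0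
      · intro P hP
        rw [Finset.mem_powerset] at hP
        exact Nat.primeFactors_prod (fun p hp => Nat.prime_of_mem_primeFactors (hP hp))
      · intro d hd
        rw [Finset.mem_filter] at hd
        exact Nat.prod_primeFactors_of_squarefree hd.2
      · intro P hP
        rw [Finset.mem_powerset] at hP
        have hPp : ∀ p ∈ P, p.Prime := fun p hp => Nat.prime_of_mem_primeFactors (hP hp)
        rw [totient_sqf (squarefree_prod_primes _ hPp), Nat.primeFactors_prod hPp]
    rw [h1, ← Finset.prod_one_add]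
    have h2 := Nat.totient_eq_mul_prod_factors D
    have h3 : (D.totient : ℝ) = D * ∏ p ∈ D.primeFactors, (1 - (p : ℝ)⁻¹) := by
      have := congrArg (fun x : ℚ => (x : ℝ)) h2
      push_cast at this
      exact this
    have hprod : ∏ p ∈ D.primeFactors, (1 - (p : ℝ)⁻¹) ≠ 0 := by
      rw [Finset.prod_ne_zero_iff]
      intro p hp
      have h4 : (1 : ℝ) < p := by exact_mod_cast (Nat.prime_of_mem_primeFactors hp).one_lt
      have h5 : (p : ℝ)⁻¹ < 1 := inv_lt_one_of_one_lt₀ h4
      linarith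
    have hDR : (D : ℝ) ≠ 0 := by exact_mod_cast hD0
    rw [h3, eq_div_iff (mul_ne_zero hDR hprod), mul_comm (D : ℝ), ← mul_assoc,
      ← Finset.prod_mul_distrib]
    have h6 : ∏ p ∈ D.primeFactors, ((1 + 1 / ((p : ℝ) - 1)) * (1 - (p : ℝ)⁻¹)) = 1 := by
      apply Finset.prod_eq_one
      intro p hp
      have h4 : (1 : ℝ) < p := by exact_mod_cast (Nat.prime_of_mem_primeFactors hp).one_lt
      have h5 : (p : ℝ) - 1 ≠ 0 := by linarith
      have h7 : (p : ℝ) ≠ 0 := by linarith
      field_simp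
      ring
    rw [h6, one_mul]
  rw [← hdiv, GG, Finset.sum_mul_sum, ← Finset.sum_product']
  -- injection
  have hg : ∀ l ∈ (Icc 1 R).filter Squarefree, l.gcd D ∈ D.divisors.filter Squarefree ∧
      l / l.gcd D ∈ AA D R ∧ (1 : ℝ) / l.totient =
        (1 : ℝ) / (l.gcd D).totient * (1 / (l / l.gcd D).totient) := by
    intro l hl
    rw [Finset.mem_filter, Finset.mem_Icc] at hl
    obtain ⟨⟨hl1, hl2⟩, hls⟩ := hl
    have hgpos : 0 < l.gcd D := Nat.gcd_pos_of_pos_left _ (by omega)
    have hmul : l.gcd D * (l / l.gcd D) = l := Nat.mul_div_cancel' (Nat.gcd_dvd_left _ _)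
    have hcop : Nat.Coprime (l / l.gcd D) D := Nat.coprime_div_gcd_of_squarefree hls hD0
    refine ⟨?_, ?_, ?_⟩
    · rw [Finset.mem_filter, Nat.mem_divisors]
      exact ⟨⟨Nat.gcd_dvd_right _ _, hD0⟩, hls.squarefree_of_dvd (Nat.gcd_dvd_left _ _)⟩
    · rw [mem_AA]
      refine ⟨⟨Nat.div_pos (Nat.le_of_dvd (by omega) (Nat.gcd_dvd_left _ _)) hgpos,
        (Nat.div_le_self _ _).trans hl2⟩, ?_, hcop⟩
      exact hls.squarefree_of_dvd (Nat.div_dvd_of_dvd (Nat.gcd_dvd_left _ _))
    · have hcop2 : Nat.Coprime (l.gcd D) (l / l.gcd D) :=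
        (Nat.Coprime.coprime_dvd_right (Nat.gcd_dvd_right l D) hcop).symm
      have h1 := Nat.totient_mul hcop2
      rw [hmul] at h1
      rw [h1, Nat.cast_mul, one_div_mul_one_div]
  calc ∑ l ∈ (Icc 1 R).filter Squarefree, (1 : ℝ) / l.totient
      = ∑ x ∈ ((Icc 1 R).filter Squarefree).image (fun l => (l.gcd D, l / l.gcd D)),
          (1 : ℝ) / (x.1).totient * (1 / (x.2).totient) := by
        rw [Finset.sum_image]
        · exact Finset.sum_congr rfl (fun l hl => (hg l hl).2.2)
        · intro l hl l' hl' heq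
          obtain ⟨h1, h2⟩ := Prod.mk.inj heq
          rw [← Nat.mul_div_cancel' (Nat.gcd_dvd_left l D),
            ← Nat.mul_div_cancel' (Nat.gcd_dvd_left l' D), h2, h1]
    _ ≤ _ := by
        apply Finset.sum_le_sum_of_subset_of_nonneg
        · intro x hx
          rw [Finset.mem_image] at hx
          obtain ⟨l, hl, rfl⟩ := hx
          rw [Finset.mem_product]
          exact ⟨(hg l hl).1, (hg l hl).2.1⟩
        · intro x _ _
          positivity

theorem GG_lower (D R : ℕ) (hD : 0 < D) :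
    Real.log R ≤ (D : ℝ) / D.totient * GG D R := by
  refine le_trans ?_ ((G1_lower R).trans (G1_le D R hD))
  rcases Nat.eq_zero_or_pos R with h | h
  · subst h; simp
  · have h1 := log_add_one_le_harmonic R
    have h2 : Real.log R ≤ Real.log (R + 1) :=
      Real.log_le_log (by exact_mod_cast h) (by linarith)
    have h3 : ((harmonic R : ℚ) : ℝ) = ∑ m ∈ Icc 1 R, (1 : ℝ) / m := by
      rw [harmonic_eq_sum_Icc]
      push_cast
      simp
    rw [← h3]
    exact h2.trans (by exact_mod_cast h1)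

theorem sum_mu (n : ℕ) : ∑ d ∈ n.divisors, (μ d : ℤ) = if n = 1 then 1 else 0 := by
  have h := congrArg (fun f : ArithmeticFunction ℤ => f n) moebius_mul_coe_zeta
  simp only [coe_mul_zeta_apply, one_apply] at h
  exact h

theorem mu_interval {l m : ℕ} (hm : Squarefree m) :
    ∑ d ∈ m.divisors.filter (fun d => l ∣ d), (μ d : ℤ) = if m = l then μ l else 0 := by
  classical
  have hm0 : m ≠ 0 := hm.ne_zero
  by_cases hl : l ∣ m
  · obtain ⟨e, rfl⟩ := hl
    have hl0 : l ≠ 0 := fun h => hm0 (by rw [h, zero_mul])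
    have he0 : e ≠ 0 := fun h => hm0 (by rw [h, mul_zero])
    have hcop : Nat.Coprime l e := Nat.coprime_of_squarefree_mul hm
    have h1 : ∑ d ∈ (l * e).divisors.filter (fun d => l ∣ d), (μ d : ℤ) =
        ∑ f ∈ e.divisors, (μ (l * f) : ℤ) := by
      symm
      apply Finset.sum_bij (fun f _ => l * f)
      · intro f hf
        rw [Nat.mem_divisors] at hf
        rw [Finset.mem_filter, Nat.mem_divisors]
        exact ⟨⟨Nat.mul_dvd_mul_left l hf.1, hm0⟩, Nat.dvd_mul_right _ _⟩
      · intro f _ f' _ h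
        exact Nat.eq_of_mul_eq_mul_left (Nat.pos_of_ne_zero hl0) h
      · intro d hd
        rw [Finset.mem_filter, Nat.mem_divisors] at hd
        obtain ⟨⟨hd1, _⟩, f, rfl⟩ := hd
        exact ⟨f, Nat.mem_divisors.2 ⟨Nat.dvd_of_mul_dvd_mul_left (Nat.pos_of_ne_zero hl0) hd1,
          he0⟩, rfl⟩
      · intro f _
        rfl
    rw [h1]
    have h2 : ∀ f ∈ e.divisors, (μ (l * f) : ℤ) = μ l * μ f := by
      intro f hf
      rw [Nat.mem_divisors] at hf
      exact isMultiplicative_moebius.map_mul_of_coprime (hcop.coprime_dvd_right hf.1)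
    rw [Finset.sum_congr rfl h2, ← Finset.mul_sum, sum_mu]
    by_cases he : e = 1
    · subst he; simp
    · rw [if_neg he, mul_zero, if_neg]
      intro h
      apply he
      exact Nat.eq_of_mul_eq_mul_left (Nat.pos_of_ne_zero hl0) (by rw [h, mul_one])
  · rw [if_neg (fun h => hl (by rw [h])), Finset.sum_eq_zero]
    intro d hd
    rw [Finset.mem_filter, Nat.mem_divisors] at hd
    exact absurd (hd.2.trans hd.1.1) hl

/-- the weights -/
noncomputable def lamW (D R : ℕ) (d : ℕ) : ℝ := by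
  classical
  exact if d ∈ AA D R then (μ d : ℝ) * d / GG D R *
    ∑ m ∈ (AA D R).filter (fun m => d ∣ m), (1 : ℝ) / m.totient else 0

theorem GG_pos (D R : ℕ) (hR : 1 ≤ R) : 0 < GG D R := by
  unfold GG
  apply Finset.sum_pos'
  · intro l _; positivity
  · exact ⟨1, mem_AA.2 ⟨⟨le_refl _, hR⟩, squarefree_one, Nat.coprime_one_left D⟩, by simp⟩

theorem y_eq (D R l : ℕ) (hR : 1 ≤ R) :
    ∑ d ∈ (Icc 1 R).filter (fun d => l ∣ d), lamW D R d / d =
      if l ∈ AA D R then (μ l : ℝ) / (GG D R * l.totient) else 0 := by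
  classical
  have hG := GG_pos D R hR
  -- restrict to AA
  have h1 : ∑ d ∈ (Icc 1 R).filter (fun d => l ∣ d), lamW D R d / d =
      ∑ d ∈ (AA D R).filter (fun d => l ∣ d), (1 / GG D R) * ((μ d : ℝ) *
        ∑ m ∈ (AA D R).filter (fun m => d ∣ m), (1 : ℝ) / m.totient) := by
    symm
    have hsub : (AA D R).filter (fun d => l ∣ d) ⊆ (Icc 1 R).filter (fun d => l ∣ d) := by
      intro d hd
      rw [Finset.mem_filter, mem_AA] at hd
      rw [Finset.mem_filter, Finset.mem_Icc]
      exact ⟨hd.1.1, hd.2⟩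
    rw [← Finset.sum_subset hsub]
    · apply Finset.sum_congr rfl
      intro d hd
      rw [Finset.mem_filter] at hd
      have hd0 : (d : ℝ) ≠ 0 := by
        have := (mem_AA.1 hd.1).1.1
        positivity
      unfold lamW
      rw [if_pos hd.1]
      field_simp
    · intro d hd hd'
      rw [Finset.mem_filter] at hd hd'
      unfold lamW
      rw [if_neg (fun h => hd' ⟨h, hd.2⟩), zero_div]
  rw [h1, ← Finset.mul_sum]
  have h2 : ∑ d ∈ (AA D R).filter (fun d => l ∣ d), ((μ d : ℝ) *
        ∑ m ∈ (AA D R).filter (fun m => d ∣ m), (1 : ℝ) / m.totient) =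
      ∑ m ∈ AA D R, (1 : ℝ) / m.totient * (if m = l then (μ l : ℝ) else 0) := by
    have h3 : ∀ d, ∑ m ∈ (AA D R).filter (fun m => d ∣ m), (1 : ℝ) / m.totient =
        ∑ m ∈ AA D R, if d ∣ m then (1 : ℝ) / m.totient else 0 := fun d => Finset.sum_filter _ _
    simp only [h3, Finset.mul_sum]
    rw [Finset.sum_comm]
    apply Finset.sum_congr rfl
    intro m hm
    have hmA := mem_AA.1 hm
    have h4 := mu_interval (l := l) hmA.2.1
    have h5 : ((∑ d ∈ m.divisors.filter (fun d => l ∣ d), (μ d : ℤ) : ℤ) : ℝ) =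
        if m = l then (μ l : ℝ) else 0 := by
      rw [h4]; push_cast; rfl
    rw [← h5, Int.cast_sum, Finset.mul_sum]
    have h6 : m.divisors.filter (fun d => l ∣ d) =
        ((AA D R).filter (fun d => l ∣ d)).filter (fun d => d ∣ m) := by
      ext d
      rw [Finset.mem_filter, Nat.mem_divisors, Finset.mem_filter, Finset.mem_filter, mem_AA]
      constructor
      · rintro ⟨⟨hd1, _⟩, hd2⟩
        have hm1 : 0 < m := hmA.1.1
        exact ⟨⟨⟨⟨Nat.pos_of_dvd_of_pos hd1 hm1, (Nat.le_of_dvd hm1 hd1).trans hmA.1.2⟩,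
          hmA.2.1.squarefree_of_dvd hd1, hmA.2.2.coprime_dvd_left hd1⟩, hd2⟩, hd1⟩
      · rintro ⟨⟨hd1, hd2⟩, hd3⟩
        exact ⟨⟨hd3, hmA.2.1.ne_zero⟩, hd2⟩
    rw [h6, Finset.sum_filter (p := fun d => d ∣ m)]
    apply Finset.sum_congr rfl
    intro d _
    by_cases hd : d ∣ m
    · rw [if_pos hd, if_pos hd]; ring
    · rw [if_neg hd, if_neg hd, mul_zero]
  rw [h2]
  by_cases hl : l ∈ AA D R
  · rw [if_pos hl, Finset.sum_eq_single l]
    · rw [if_pos rfl]
      have : (l.totient : ℝ) ≠ 0 := by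
        have := Nat.totient_pos.2 (mem_AA.1 hl).1.1
        positivity
      field_simp
    · intro m _ hml
      rw [if_neg hml, mul_zero]
    · intro h; exact absurd hl h
  · rw [if_neg hl, Finset.sum_eq_zero, mul_zero]
    intro m hm
    by_cases hml : m = l
    · subst hml
      exact absurd hm hl
    · rw [if_neg hml, mul_zero]

theorem selberg_weights {D : ℕ} (hD : 0 < D) {R : ℕ} (hR : 2 ≤ R) : ∃ lam : ℕ → ℝ, lam 1 = 1 ∧
    (∀ d, lam d ≠ 0 → 1 ≤ d ∧ d ≤ R ∧ Nat.Coprime d D) ∧ (∀ d, |lam d| ≤ R) ∧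
    ∑ d₁ ∈ Finset.Icc 1 R, ∑ d₂ ∈ Finset.Icc 1 R, lam d₁ * lam d₂ / (Nat.lcm d₁ d₂ : ℝ) ≤
      (D : ℝ) / (D.totient * Real.log R) := by
  classical
  have hG := GG_pos D R (by omega)
  refine ⟨lamW D R, ?_, ?_, ?_, ?_⟩
  · unfold lamW
    rw [if_pos (mem_AA.2 ⟨⟨le_refl _, by omega⟩, squarefree_one, Nat.coprime_one_left D⟩)]
    have : ∑ m ∈ (AA D R).filter (fun m => 1 ∣ m), (1 : ℝ) / m.totient = GG D R := by
      unfold GG
      apply Finset.sum_congr _ (fun _ _ => rfl)
      simp
    rw [this]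
    simp only [moebius_apply_one, Nat.cast_one, mul_one]
    push_cast
    field_simp
  · intro d hd
    unfold lamW at hd
    by_cases h : d ∈ AA D R
    · have := mem_AA.1 h
      exact ⟨this.1.1, this.1.2, this.2.2⟩
    · rw [if_neg h] at hd
      exact absurd rfl hd
  · intro d
    unfold lamW
    by_cases h : d ∈ AA D R
    · rw [if_pos h]
      have hA := mem_AA.1 h
      have h1 : |(μ d : ℝ)| ≤ 1 := by
        have := abs_moebius_le_one (n := d)
        exact_mod_cast this
      have h2 : ∑ m ∈ (AA D R).filter (fun m => d ∣ m), (1 : ℝ) / m.totient ≤ GG D R := by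
        apply Finset.sum_le_sum_of_subset_of_nonneg (Finset.filter_subset _ _)
        intro _ _ _; positivity
      have h3 : 0 ≤ ∑ m ∈ (AA D R).filter (fun m => d ∣ m), (1 : ℝ) / m.totient :=
        Finset.sum_nonneg (fun _ _ => by positivity)
      rw [abs_mul, abs_div, abs_mul, abs_of_pos hG, abs_of_nonneg h3, Nat.abs_cast]
      have hdR : (d : ℝ) ≤ R := by exact_mod_cast hA.1.2
      have hd0 : (0 : ℝ) ≤ d := Nat.cast_nonneg _
      calc |(μ d : ℝ)| * d / GG D R * ∑ m ∈ (AA D R).filter (fun m => d ∣ m), (1 : ℝ) / m.totient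
          ≤ |(μ d : ℝ)| * d / GG D R * GG D R :=
            mul_le_mul_of_nonneg_left h2 (by positivity)
        _ = |(μ d : ℝ)| * d := by field_simp
        _ ≤ 1 * d := mul_le_mul_of_nonneg_right h1 hd0
        _ ≤ R := by rw [one_mul]; exact hdR
    · rw [if_neg h, abs_zero]; positivity
  · -- the quadratic form
    have hlcm : ∀ d₁ ∈ Icc 1 R, ∀ d₂ ∈ Icc 1 R,
        lamW D R d₁ * lamW D R d₂ / (Nat.lcm d₁ d₂ : ℝ) =
        ∑ l ∈ Icc 1 R, (l.totient : ℝ) * ((if l ∣ d₁ then lamW D R d₁ / d₁ else 0) *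
          (if l ∣ d₂ then lamW D R d₂ / d₂ else 0)) := by
      intro d₁ h₁ d₂ h₂
      rw [Finset.mem_Icc] at h₁ h₂
      have e1 : (d₁ : ℝ) ≠ 0 := by have := h₁.1; positivity
      have e2 : (d₂ : ℝ) ≠ 0 := by have := h₂.1; positivity
      have hgcd : ((d₁.gcd d₂ : ℕ) : ℝ) = ∑ l ∈ Icc 1 R,
          if l ∣ d₁ ∧ l ∣ d₂ then (l.totient : ℝ) else 0 := by
        rw [← Finset.sum_filter]
        conv_lhs => rw [← Nat.sum_totient (d₁.gcd d₂)]
        rw [Nat.cast_sum]
        apply Finset.sum_congr _ (fun _ _ => rfl)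
        ext l
        have hgpos : 0 < d₁.gcd d₂ := Nat.gcd_pos_of_pos_left _ (by omega)
        rw [Nat.mem_divisors, Finset.mem_filter, Finset.mem_Icc, Nat.dvd_gcd_iff]
        constructor
        · rintro ⟨h, _⟩
          exact ⟨⟨Nat.pos_of_dvd_of_pos h.1 (by omega), (Nat.le_of_dvd (by omega) h.1).trans h₁.2⟩,
            h⟩
        · rintro ⟨_, h⟩
          exact ⟨h, hgpos.ne'⟩
      have hl : (Nat.lcm d₁ d₂ : ℝ) = d₁ * d₂ / (d₁.gcd d₂ : ℕ) := by
        have hg0 : ((d₁.gcd d₂ : ℕ) : ℝ) ≠ 0 := by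
          have : 0 < d₁.gcd d₂ := Nat.gcd_pos_of_pos_left _ (by omega)
          positivity
        rw [eq_div_iff hg0]
        have := Nat.gcd_mul_lcm d₁ d₂
        rw [mul_comm]
        exact_mod_cast this
      rw [hl, div_div_eq_mul_div, hgcd, Finset.mul_sum, Finset.sum_div]
      apply Finset.sum_congr rfl
      intro l _
      by_cases c1 : l ∣ d₁
      · by_cases c2 : l ∣ d₂
        · rw [if_pos ⟨c1, c2⟩, if_pos c1, if_pos c2]
          field_simp
        · rw [if_neg (fun h => c2 h.2), if_neg c2]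
          simp
      · rw [if_neg (fun h => c1 h.1), if_neg c1]
        simp
    rw [Finset.sum_congr rfl (fun d₁ h₁ => Finset.sum_congr rfl (fun d₂ h₂ => hlcm d₁ h₁ d₂ h₂))]
    have hswap : ∑ d₁ ∈ Icc 1 R, ∑ d₂ ∈ Icc 1 R, ∑ l ∈ Icc 1 R, (l.totient : ℝ) *
        ((if l ∣ d₁ then lamW D R d₁ / d₁ else 0) * (if l ∣ d₂ then lamW D R d₂ / d₂ else 0)) =
        ∑ l ∈ Icc 1 R, (l.totient : ℝ) *
          (∑ d ∈ (Icc 1 R).filter (fun d => l ∣ d), lamW D R d / d) ^ 2 := by
      have h1 : ∀ d₁ ∈ Icc 1 R, ∑ d₂ ∈ Icc 1 R, ∑ l ∈ Icc 1 R, (l.totient : ℝ) *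
        ((if l ∣ d₁ then lamW D R d₁ / d₁ else 0) * (if l ∣ d₂ then lamW D R d₂ / d₂ else 0)) =
          ∑ l ∈ Icc 1 R, ∑ d₂ ∈ Icc 1 R, (l.totient : ℝ) *
        ((if l ∣ d₁ then lamW D R d₁ / d₁ else 0) * (if l ∣ d₂ then lamW D R d₂ / d₂ else 0)) :=
        fun d₁ _ => Finset.sum_comm
      rw [Finset.sum_congr rfl h1, Finset.sum_comm]
      apply Finset.sum_congr rfl
      intro l _
      rw [Finset.sum_filter, sq, Finset.sum_mul_sum, Finset.mul_sum]
      apply Finset.sum_congr rfl
      intro d₁ _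
      rw [Finset.mul_sum]
    rw [hswap]
    simp only [y_eq D R _ (by omega : 1 ≤ R)]
    have hfin : ∑ l ∈ Icc 1 R, (l.totient : ℝ) *
        (if l ∈ AA D R then (μ l : ℝ) / (GG D R * l.totient) else 0) ^ 2 = 1 / GG D R := by
      have hsub : AA D R ⊆ Icc 1 R := by
        intro l hl
        rw [Finset.mem_Icc]
        exact (mem_AA.1 hl).1
      rw [← Finset.sum_subset hsub]
      · have h1 : ∀ l ∈ AA D R, (l.totient : ℝ) *
            (if l ∈ AA D R then (μ l : ℝ) / (GG D R * l.totient) else 0) ^ 2 =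
            (1 / GG D R ^ 2) * (1 / l.totient) := by
          intro l hl
          rw [if_pos hl]
          have hA := mem_AA.1 hl
          have h2 : ((μ l : ℤ) : ℝ) ^ 2 = 1 := by
            have := moebius_sq_eq_one_of_squarefree hA.2.1
            exact_mod_cast this
          have h3 : (l.totient : ℝ) ≠ 0 := by
            have := Nat.totient_pos.2 hA.1.1
            positivity
          rw [div_pow, h2]
          field_simp
        rw [Finset.sum_congr rfl h1, ← Finset.mul_sum]
        change 1 / GG D R ^ 2 * GG D R = 1 / GG D R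
        field_simp
      · intro l _ hl
        rw [if_neg hl]
        simp
    rw [hfin]
    have hlow := GG_lower D R hD
    have hlog : 0 < Real.log R := Real.log_pos (by exact_mod_cast hR)
    have hphi : (0 : ℝ) < D.totient := by exact_mod_cast Nat.totient_pos.2 hD
    have hDR : (0 : ℝ) < D := by exact_mod_cast hD
    rw [div_le_div_iff₀ hG (by positivity), one_mul]
    rw [div_mul_eq_mul_div, le_div_iff₀ hphi] at hlow
    linarith

end Pool.Agent.Helper69.EK
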